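import Mathlib
import Pool.Agent.Lib.MP_9d6b4a_an.Final

/-!
Failure of polynomial multiple recurrence with an extra variable for arbitrary (non-commuting)
invertible measure preserving transformations, for the linear polynomials `0, t, 2t, ...`.
-/

set_option autoImplicit false

namespace Pool.Agent.Results.MP_9d6b4a_an.NoRecurrence

open MeasureTheory TopologicalSpace Pool.Agent.PolyRec

set_option exponentiation.threshold 600 in
/-- the parameters, with `S = 2 ^ 15` -/
private theorem exists_par' : ∃ P : Par, P.S = 2 ^ 15 :=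
  ⟨{ S := 2 ^ 15, D := 2 ^ 16, L := 511, J := 10, α := 1 / 2 ^ 64, e := 1 / 2 ^ 81,
     lam := 1 / 2 ^ 84, A' := 1 / 2 ^ 84, A := 1 / 2 ^ 102
     hD := by norm_num
     hα0 := by norm_num
     he0 := by norm_num
     he1 := by norm_num
     hlam0 := by norm_num
     hA0 := by norm_num
     hA1 := by norm_num
     hα := by norm_num
     hroom := by norm_num
     hforms := by norm_num
     hbad := by norm_num
     hsmall := by norm_num
     hA' := by norm_num
     hA'16 := by norm_num
     htier := by norm_num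
     hfin := by norm_num }, rfl⟩

/-- the system -/
private theorem system (P : Par) : ∃ O : ℕ, ∃ T : Fin (P.S + 1) → Equiv.Perm (Y P.S O × G P.S O),
    (∀ p, Measurable (T p)) ∧ (∀ p, Measurable (T p).symm) ∧
    (∀ p, MeasurePreserving (T p) ((μY P.S O).prod (μG P.S O)) ((μY P.S O).prod (μG P.S O))) ∧
    ∃ A : Set (Y P.S O × G P.S O), MeasurableSet A ∧ 0 < (μY P.S O).prod (μG P.S O) A ∧
      ∀ m n : ℤ, m ≠ 0 → (μY P.S O).prod (μG P.S O)
        (A ∩ ⋂ i : Fin (2 * (P.S + 1)), ⇑(T (pr i) ^ (m + (i : ℕ) * n)) ⁻¹' A) = 0 := by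
  obtain ⟨O, hO, z, hz⟩ := exists_Good_pos P
  choose F hF hF' hF1 hF2 using fun p : Fin (P.S + 1) => exists_gather P.S O p
  choose Φ hΦc hΦm hΦm' hΦ using fun p : Fin (P.S + 1) =>
    exists_Phi P.S O (Elev P O) (Elev_cont P O) (Elev_cont_symm P O) (F p) (hF p) (hF' p)
  choose T hT hT' hTm hTκ using fun p : Fin (P.S + 1) =>
    exists_skew (μY P.S O) (μG P.S O) (Φ p) (hΦc p) (hΦm p) (hΦm' p)
  refine ⟨O, T, hT, hT', hTm, {y | Good P O z y} ×ˢ Set.univ,
    (measurableSet_Good P O z).prod MeasurableSet.univ, ?_, fun m n hm => ?_⟩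
  · rw [Measure.prod_prod, measure_univ, mul_one]
    exact hz
  refine measure_mono_null (t := Set.univ ×ˢ {g | ∀ k, cnt (fun a : Fin (o O k) =>
    P.A < ‖m • g k (pr (⟨0, by omega⟩ : Fin (2 * (P.S + 1))), a)‖) ≤ P.e * o O k}) ?_ ?_
  · rintro ⟨y, g⟩ ⟨hA, hI⟩
    refine ⟨Set.mem_univ _, ?_⟩
    rw [Set.mem_iInter] at hI
    intro k
    have key := induction P O z F hF1 hF2 m n y g hA.1 ?_ k ⟨0, by omega⟩
    · simpa using key
    · intro i
      have h := (hI i).1
      simp only [Set.mem_ofPred_eq, hTκ] at h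
      have h2 : Φ (pr i) y g = fun k => Elev P O k (Jset (y k)) (F (pr i) g k) := by
        funext k
        exact hΦ _ _ _ _
      rw [h2] at h
      simpa using h
  · rw [Measure.prod_prod, null P O hO m hm _, mul_zero]

/-- For every `ℓ ≥ 65538` there are a Borel probability measure on a compact metrizable space,
invertible bimeasurable measure preserving maps `T_0, …, T_{ℓ-1}` and a set `A` of positive measure
such that `A ∩ ⋂_{i<ℓ} T_i^{-(m + i n)} A` is a null set for all integers `m ≠ 0` and `n`. -/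
theorem result (ℓ : ℕ) (hℓ : 65538 ≤ ℓ) :
    ∃ (X : Type) (_ : TopologicalSpace X) (_ : CompactSpace X) (_ : MetrizableSpace X)
      (_ : MeasurableSpace X) (_ : BorelSpace X) (μ : Measure X) (_ : IsProbabilityMeasure μ)
      (T : Fin ℓ → Equiv.Perm X) (A : Set X),
      (∀ i, Measurable (T i)) ∧ (∀ i, Measurable (T i).symm) ∧
      (∀ i, MeasurePreserving (T i) μ μ) ∧ MeasurableSet A ∧ 0 < μ A ∧
      ∀ m n : ℤ, m ≠ 0 → μ (A ∩ ⋂ i : Fin ℓ, ⇑(T i ^ (m + (i : ℕ) * n)) ⁻¹' A) = 0 := by
  obtain ⟨P, hP⟩ := exists_par'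
  obtain ⟨O, T, hT, hT', hTm, A, hA, hpos, hnull⟩ := system P
  have hS : 2 * (P.S + 1) ≤ ℓ := by
    rw [hP]
    omega
  refine ⟨Y P.S O × G P.S O, inferInstance, inferInstance, inferInstance, inferInstance,
    Prod.borelSpace, (μY P.S O).prod (μG P.S O), inferInstance,
    fun i => if h : (i : ℕ) < 2 * (P.S + 1) then T (pr ⟨i, h⟩) else 1, A, ?_, ?_, ?_, hA, hpos,
    fun m n hm => ?_⟩
  · intro i
    by_cases h : (i : ℕ) < 2 * (P.S + 1)
    · simp only [dif_pos h]
      exact hT _
    · simp only [dif_neg h]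
      exact measurable_id
  · intro i
    by_cases h : (i : ℕ) < 2 * (P.S + 1)
    · simp only [dif_pos h]
      exact hT' _
    · simp only [dif_neg h]
      exact measurable_id
  · intro i
    by_cases h : (i : ℕ) < 2 * (P.S + 1)
    · simp only [dif_pos h]
      exact hTm _
    · simp only [dif_neg h]
      exact MeasurePreserving.id _
  · refine measure_mono_null ?_ (hnull m n hm)
    refine Set.inter_subset_inter_right A ?_
    intro x hx
    rw [Set.mem_iInter] at hx ⊢
    intro i
    have h1 := hx ⟨i, lt_of_lt_of_le i.2 hS⟩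
    simp only [dif_pos i.2] at h1
    exact h1

end Pool.Agent.Results.MP_9d6b4a_an.NoRecurrence
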