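import Pool.Agent.Lib.MP_9d6b4a_an.Main

/-!
Two arbitrary invertible measure preserving transformations (no relation between them), two
arbitrary distinct integer polynomials without constant term: large intersections along
`m + p(n)`, `m + q(n)`.
-/

set_option autoImplicit false

namespace Pool.Agent.Results.MP_9d6b4a_an.TwoTransformations

open MeasureTheory Polynomial

/-- For arbitrary invertible measure preserving `T`, `S` of a probability space, distinct integer
polynomials `p`, `q` with zero constant term, every measurable `A` and `ε > 0` there are positive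
`m`, `n` with `μ(A ∩ T^{-(m+p(n))} A ∩ S^{-(m+q(n))} A) ≥ μ(A)³ - ε`. -/
theorem result {α : Type*} [MeasurableSpace α] (μ : Measure α) [IsProbabilityMeasure μ]
    (T S : Equiv.Perm α) (hT : Measurable T) (hT' : Measurable T.symm)
    (hTμ : MeasurePreserving T μ μ) (hS : Measurable S) (hS' : Measurable S.symm)
    (hSμ : MeasurePreserving S μ μ) (p q : ℤ[X]) (hpq : p ≠ q) (hp : p.coeff 0 = 0)
    (hq : q.coeff 0 = 0) (A : Set α) (hA : MeasurableSet A) (ε : ℝ) (hε : 0 < ε) :
    ∃ m n : ℕ, 0 < m ∧ 0 < n ∧ μ.real A ^ 3 - ε ≤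
      μ.real (A ∩ ⇑(T ^ ((m : ℤ) + p.eval (n : ℤ))) ⁻¹' A
        ∩ ⇑(S ^ ((m : ℤ) + q.eval (n : ℤ))) ⁻¹' A) :=
  Pool.Agent.Lib.ShiftRec.two_recurrence ⟨hT, hT', hTμ⟩ ⟨hS, hS', hSμ⟩ hpq hp hq hA hε

end Pool.Agent.Results.MP_9d6b4a_an.TwoTransformations
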